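import Pool.Agent.U143.AR.Main

/-!
# The pole of the `H²` L-function at `s = 2` in towers of alternating extensions

`X` is a connected smooth projective variety over a number field `k` and `V = NS(X) ⊗ ℚ`, with the action of
the absolute Galois group of `k`.  For every number field `L ⊇ k` the variety `X_L` has the `L`-function
`L_2(s, X_L)`, an Euler product over the primes of `L`, and `rank NS(X_L/L) = dim V^{Gal(k̄/L)}`.  The defect
over `L` is the difference between `rank NS(X_L/L)` and the order of the pole of `L_2(s, X_L)` at `s = 2`;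
Tate's conjecture for `X_L` says that it is `0`.
The definitions are in `Pool.Agent.U143.AR.Defs`, `Pool.Agent.TH526.DS.CamDefs`,
`Pool.Agent.W353.AT.TDefs`, `Pool.Agent.W353.AT.Defs`, `Pool.Agent.W353.TD.Defs`,
`Pool.Agent.W353.EH.Defs` and `Pool.Agent.W353.EF.Defs`.
-/

set_option autoImplicit false

namespace Pool.Agent.Results.MP_1f4fc7_nt.AlternatingTowers

open NumberField Pool.Agent.W353.TD

/-- **The pole at `s = 2` in towers of alternating extensions.**  For every `s` there is a number `m₀` with
the following property.  Let `X` be a projective variety of dimension `d ≥ 1` over a number field `K`, `N` the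
second Betti number, `V` a part of `H²(X)(1)`, for instance `V = NS(X) ⊗ ℚ`, with `N - dim V ≤ s`.  Let
`M ⊆ F` be finite Galois extensions of `K` and `M = E_t ⊆ … ⊆ E_0 = F` a chain of Galois extensions of `K` such
that every `Gal(E_i/E_{i+1})` is an alternating group of degree at least `m₀`.  Suppose that the
`L`-functions `L(H²(X) ⊗ χ, s)`, for the irreducible representations `χ` of `Gal(F/K)` that are not trivial
on `Gal(F/M)`, have integral orders at `2`.  Then:
* all these orders are the ones predicted by Tate's conjecture, `- dim (NS(X) ⊗ χ)^{Gal(K̄/K)}`;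
* for every field `L` between `K` and `F` (Galois over `K` or not) the defects over `L` and over `L ∩ M`
  are equal: Tate's conjecture on the pole for `X_L` is equivalent to the one for `X_{L ∩ M}`. -/
theorem result (s : ℕ) : ∃ m₀ : ℕ, ∀ (K : Type) [Field K] [NumberField K] (n : ℕ)
    (X : Set (MvPolynomial (Fin n) (𝓞 K))) (d N : ℕ) (V : Type) [AddCommGroup V] [Module ℚ V]
    [FiniteDimensional ℚ V] (ρ : Representation ℚ Gal(AlgebraicClosure K/K) V), 1 ≤ d →
    IsPart X d 1 N ρ → N - Module.finrank ℚ V ≤ s →
    Pool.Agent.U143.AR.DefectRigidity X d 1 N m₀ ρ := by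
  obtain ⟨m₀, h⟩ := Pool.Agent.U143.AR.defectRigidity s
  exact ⟨m₀, fun K _ _ n X d N V _ _ _ ρ => h K n X d 1 N V ρ⟩

end Pool.Agent.Results.MP_1f4fc7_nt.AlternatingTowers
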