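import Pool.Agent.Q285.NG.Main
import Pool.Agent.U345.Conv

/-!
# Tate's conjecture for surfaces with given sections: an invariance principle

Let `F₀(t, x)` be a polynomial with integral coefficients and `s_1, …, s_r` distinct polynomials in `t` such that
`F₀(t, s_j(t)) = y_j(t)²` with `y_j ≠ 0`. We consider the surfaces

`S_c : y² = F₀(t, x) + (x - s_1(t)) ⋯ (x - s_r(t)) (u(t) + v(t) x)`,

`u` and `v` polynomials of degree at most `D`, `D ≥ 3`, with the integral coefficients `c`; all of them contain the `2 r` curves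
`(t, s_j(t), ± y_j(t))`. (For `r = 0`, `F₀ = x³` these are all the elliptic surfaces `y² = x³ + v(t) x + u(t)`; in general the fibres over
the `t`-line are hyperelliptic curves of any genus.) Let `N_p(c)` be the number of the points of `S_c` over the field with `p` elements.
Then `(N_p(c) - p²) / p` is, up to algebraic curves at infinity and in the reducible fibres, the trace of Frobenius on the second
cohomology `H²(1)`. For a general `c` the only algebraic classes are those of the fibration and of the `r` sections, so that Tate's conjecture (the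
pole of `L₂(s, S_c)` at `s = 2`; equivalently, by Rosen and Silverman, the conjecture of Nagao) predicts that the mean of
`log p (N_p(c) - p²) / p` over the primes is `r`.

It is proved, unconditionally, that for random `c` this holds with the fluctuations of a Brownian motion: for `X → ∞` the
processes

`τ ↦ (X log X) ^ (-1 / 2) ∑_{p ≤ τ X} (r - (N_p(c) - p²) / p) log p`,    `0 ≤ τ ≤ 1`,

converge in law to the standard Brownian motion: the finite dimensional distributions converge, and the processes are tight (for every `ε` there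
is a `δ` such that, except for a proportion `ε` of the `c`, the process varies by at most `ε` on all intervals of length `δ`). Here `c` is equidistributed in
any box whose sides are larger than a power of `X`. By the theorem of Prokhorov this is convergence in law in the space of functions on
`[0, 1]`; so e.g. also the maximum over `Y ≤ X` of the deviation of the sum over `p ≤ Y` from its predicted value `r Y` is of the exact order
`√(X log X)`, and has the limit law of the maximum of the Brownian motion.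

Proof. Modulo `p` the pairs `(u(t), v(t))` for four different `t` are independent, so the four first moments of `(N_p(c) - p²) / p` over all `c`
modulo `p` can be calculated: mean `r + O(1 / p)`, variance `1 + O(1 / p)`. The chinese remainder theorem gives the independence for
different primes, and the characteristic functions converge by a theorem of Lindeberg type for functions of residues (library
`Q285.NG`, `Q285.HS`, `Q282.CL`). New here is the tightness: the fourth moments of the sums over blocks of primes over boxes (`U345.Four`) and a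
maximal inequality for fourth moments (`U345.Max`, `U345.Tight`).
-/

set_option autoImplicit false

namespace Pool.Agent.Results.MP_1f4fc7_nt.InvariancePrinciple

open Finset Polynomial MeasureTheory ProbabilityTheory
open scoped NNReal

/-- The value of `F(t, x)` modulo `p`, for `F` in `ℤ[t][x]`. -/
noncomputable def val (p : ℕ) (F : ℤ[X][X]) (t x : ZMod p) : ZMod p :=
  F.eval₂ (eval₂RingHom (Int.castRingHom (ZMod p)) t) x

/-- The number `N_p` of the points `(t, x, y)` modulo `p` of the surface `y² = F(t, x)`. -/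
noncomputable def points (p : ℕ) (F : ℤ[X][X]) : ℕ :=
  Nat.card {P : ZMod p × ZMod p × ZMod p // P.2.2 ^ 2 = val p F P.1 P.2.1}

/-- The normalised number `(N_p - p²) / p`. -/
noncomputable def trace (p : ℕ) (F : ℤ[X][X]) : ℝ := ((points p F : ℝ) - (p : ℝ) ^ 2) / p

/-- The polynomial `∑ aᵢ tⁱ`. -/
noncomputable def pol {D : ℕ} (a : Fin (D + 1) → ℤ) : ℤ[X] := ∑ i : Fin (D + 1), C (a i) * X ^ (i : ℕ)

/-- The polynomial `F₀ + ∏ⱼ (x - sⱼ(t)) · (u(t) + v(t) x)`, where `u` has the coefficients `c (0, ·)` and `v` has the coefficients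
`c (1, ·)`. -/
noncomputable def member {D r : ℕ} (F₀ : ℤ[X][X]) (s : Fin r → ℤ[X]) (c : Fin 2 × Fin (D + 1) → ℤ) : ℤ[X][X] :=
  F₀ + (∏ j, (X - C (s j))) * (C (pol fun i => c (0, i)) + C (pol fun i => c (1, i)) * X)

/-- The integer vectors `c` with `N i ≤ c i < N i + L i`. -/
noncomputable def box {κ : Type} [Fintype κ] [DecidableEq κ] (N : κ → ℤ) (L : κ → ℕ) : Finset (κ → ℤ) :=
  Fintype.piFinset fun i => Ico (N i) (N i + L i)

/-- The sum `(X log X) ^ (-1 / 2) ∑_{p ≤ τ X} z_p log p` over primes. -/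
noncomputable def path (z : ℕ → ℝ) (X : ℕ) (τ : ℝ≥0) : ℝ :=
  (∑ p ∈ (Icc 1 ⌊(τ : ℝ) * X⌋₊).filter Nat.Prime, z p * Real.log p) / √(X * Real.log X)

/-- The probability that `B(τ) ≤ x(τ)` for all `τ` in the finite set `I`, for a standard Brownian motion `B`. -/
noncomputable def brownian (I : Finset ℝ≥0) (x : I → ℝ) : ℝ := (BrownianReal.projectiveFamily I).real (Set.Iic x)

/-- For `c` equidistributed in boxes with sides at least `X ^ X₁` the processes `τ ↦ path (z c) X τ`, `0 ≤ τ ≤ 1`, converge in law to the standard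
Brownian motion: the finite dimensional distributions converge, and for every `ε` there is a `δ` such that, except for a proportion `ε` of
the `c`, the process varies by at most `ε` on intervals of length `δ`, for all large `X`. -/
def ConvergesToBrownian {κ : Type} [Fintype κ] [DecidableEq κ] (z : (κ → ℤ) → ℕ → ℝ) : Prop :=
  (∀ I : Finset ℝ≥0, (∀ τ ∈ I, 0 < τ ∧ τ ≤ 1) → ∀ (x : I → ℝ) (ε : ℝ), 0 < ε → ∃ X₁ : ℕ, ∀ X : ℕ, X₁ ≤ X →
    ∀ (N : κ → ℤ) (L : κ → ℕ), (∀ i, (X : ℝ) ^ X₁ ≤ L i) →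
      |({c ∈ (box N L : Set (κ → ℤ)) | ∀ τ : I, path (z c) X τ ≤ x τ}.ncard : ℝ) / ∏ i, (L i : ℝ) - brownian I x| ≤ ε) ∧
  ∀ ε : ℝ, 0 < ε → ∃ δ : ℝ, 0 < δ ∧ ∃ X₁ : ℕ, ∀ X : ℕ, X₁ ≤ X →
    ∀ (N : κ → ℤ) (L : κ → ℕ), (∀ i, (X : ℝ) ^ X₁ ≤ L i) →
      ({c ∈ (box N L : Set (κ → ℤ)) | ∃ σ τ : ℝ≥0, σ ≤ τ ∧ τ ≤ 1 ∧ (τ : ℝ) - σ ≤ δ ∧
        ε < |path (z c) X τ - path (z c) X σ|}.ncard : ℝ) ≤ ε * ∏ i, (L i : ℝ)

/-- The curves `(t, s_j(t), ± y_j(t))` lie on the surface. -/
lemma section_mem {D r : ℕ} {F₀ : ℤ[X][X]} {s y : Fin r → ℤ[X]} (hq : ∀ j, F₀.eval (s j) = y j ^ 2)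
    (c : Fin 2 × Fin (D + 1) → ℤ) (j : Fin r) : (member F₀ s c).eval (s j) = y j ^ 2 := by
  unfold member
  rw [eval_add, eval_mul, eval_prod, Finset.prod_eq_zero (mem_univ j) (by simp), zero_mul, add_zero, hq]

lemma points_eq (p : ℕ) [hp : Fact p.Prime] (F : ℤ[X][X]) :
    (points p F : ℝ) = ∑ t ∈ range p, (Nat.card {z : ZMod p × ZMod p // z.2 ^ 2 = val p F (t : ZMod p) z.1} : ℝ) := by
  rw [Q285NG.sum_range p fun t => (Nat.card {z : ZMod p × ZMod p // z.2 ^ 2 = val p F t z.1} : ℝ)]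
  unfold points
  rw [← Nat.cast_sum]
  congr 1
  have e : {P : ZMod p × ZMod p × ZMod p // P.2.2 ^ 2 = val p F P.1 P.2.1} ≃
      (Σ t : ZMod p, {z : ZMod p × ZMod p // z.2 ^ 2 = val p F t z.1}) :=
    { toFun := fun P => ⟨P.1.1, ⟨P.1.2, P.2⟩⟩
      invFun := fun P => ⟨(P.1, P.2.1), P.2.2⟩
      left_inv := fun P => rfl
      right_inv := fun P => rfl }
  rw [Nat.card_congr e, Nat.card_sigma]

lemma trace_eq (p : ℕ) [hp : Fact p.Prime] (F : ℤ[X][X]) : - trace p F = Q285NG.avTr p F := by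
  unfold trace Q285NG.avTr
  rw [points_eq, sum_sub_distrib, sum_const, card_range, nsmul_eq_mul]
  have e : ∀ t : ℕ, (Nat.card {z : ZMod p × ZMod p // z.2 ^ 2 = val p F (t : ZMod p) z.1} : ℝ) =
      Nat.card {z : ZMod p × ZMod p // z.2 ^ 2 = Q285NG.val p F (t : ZMod p) z.1} := fun t => rfl
  simp only [e]
  ring

/-- **Theorem.** Let `F₀ ∈ ℤ[t][x]`, and let `s_j, y_j ∈ ℤ[t]`, `j = 1, …, r`, be such that the `s_j` are distinct, `y_j ≠ 0` and
`F₀(t, s_j(t)) = y_j(t)²`; let `D ≥ 3`. Then all surfaces `S_c` contain the curves `(t, s_j(t), ± y_j(t))`, and the processes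
`τ ↦ (X log X) ^ (-1 / 2) ∑_{p ≤ τ X} (r - (N_p(c) - p²) / p) log p` converge in law to the standard Brownian motion. -/
theorem result (D r : ℕ) (hD : 3 ≤ D) (F₀ : ℤ[X][X]) (s y : Fin r → ℤ[X]) (hs : Function.Injective s) (hy : ∀ j, y j ≠ 0)
    (hq : ∀ j, F₀.eval (s j) = y j ^ 2) :
    (∀ (c : Fin 2 × Fin (D + 1) → ℤ) (j : Fin r), (member F₀ s c).eval (s j) = y j ^ 2) ∧
    ConvergesToBrownian fun (c : Fin 2 × Fin (D + 1) → ℤ) p => (r : ℝ) - trace p (member F₀ s c) := by
  refine ⟨fun c j => section_mem hq c j, ?_⟩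
  obtain ⟨K₁, hK₁⟩ : ∃ K : ℝ, K = Q285NG.KK s y + 2 * (r + 4) := ⟨_, rfl⟩
  obtain ⟨K₂, hK₂⟩ : ∃ K : ℝ, K = Q285NG.KK s y ^ 2 + (r + 1) + 2 * ((r + 4) ^ 2 + 1) := ⟨_, rfl⟩
  obtain ⟨C₄, hC₄⟩ : ∃ K : ℝ, K = 8 * (Q285NG.KK s y ^ 4 + 4) + (r + 4) ^ 4 := ⟨_, rfl⟩
  have hK := Q285NG.KK_nonneg (s := s) (y := y)
  have hr : (0 : ℝ) ≤ r := Nat.cast_nonneg r
  have hK₁0 : 0 ≤ K₁ := by
    rw [hK₁]
    positivity
  have hK₂0 : 0 ≤ K₂ := by
    rw [hK₂]
    positivity
  have hC₄0 : 0 ≤ C₄ := by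
    rw [hC₄]
    positivity
  have hsq : ∀ p : ℕ, p.Prime → ∀ K : ℝ, 0 ≤ K → K ≤ K₁ + K₂ + C₄ + r + 5 → K * (1 / (p : ℝ)) ≤ (K₁ + K₂ + C₄ + r + 5) / Real.sqrt p := by
    intro p hp K hK0 hKle
    have hp0 : (0 : ℝ) < p := by exact_mod_cast hp.pos
    have hp1 : (1 : ℝ) ≤ p := by exact_mod_cast hp.one_lt.le
    have hs0 : 0 < Real.sqrt p := Real.sqrt_pos.2 hp0
    rw [mul_one_div]
    refine div_le_div₀ (by linarith) hKle hs0 ?_
    rw [Real.sqrt_le_left hp0.le]
    nlinarith
  refine U345T.conv_of (Q285NG.HP F₀ s) 2 0 (K₁ + K₂ + C₄ + r + 5) (by linarith) ?_ ?_ ?_ ?_ _ ?_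
  · intro p hp u
    have : Fact p.Prime := ⟨hp⟩
    have hp1 : (1 : ℝ) ≤ p := by exact_mod_cast hp.one_lt.le
    have h1 := Q285NG.HP_abs F₀ s p u
    have h2 : (1 : ℝ) ≤ (p : ℝ) ^ 2 := one_le_pow₀ hp1
    nlinarith
  · intro p hp _
    refine (Q285NG.mom_one (D := D) hs hy hq p hp).trans ?_
    rw [← hK₁]
    exact hsq p hp K₁ hK₁0 (by linarith)
  · intro p hp _
    refine (Q285NG.mom_two (D := D) hD hs hy hq p hp).trans ?_
    rw [← hK₂]
    exact hsq p hp K₂ hK₂0 (by linarith)
  · intro p hp _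
    refine (Q285NG.mom_four (D := D) hD hs hy hq p hp).trans ?_
    rw [← hC₄]
    linarith
  · intro c p hp
    have : Fact p.Prime := ⟨hp⟩
    rw [Q285NG.HP_fam]
    have e : Q285NG.avTr p (Q285NG.fam F₀ s c) = - trace p (member F₀ s c) := (trace_eq p (member F₀ s c)).symm
    rw [e]
    ring

end Pool.Agent.Results.MP_1f4fc7_nt.InvariancePrinciple
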