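import Pool.Agent.U187.NS.Main

/-!
# The pole of `L₂` at `s = 2` for products with varieties with modular Albanese variety

`Y` is a smooth projective variety over a number field `K`.  By the theorem of Künneth
`H²(Y × Z) = H²(Y) ⊕ H²(Z) ⊕ H¹(Y) ⊗ H¹(Z)`, and the conjecture of Tate for `L₂(s, Y × Z)` says that
the order of the pole at `s = 2` is the sum of the orders for `Y` and `Z` and of the rank of
`Hom_K(Alb Y, Alb Z)`.  Here `Z` runs through all varieties over `K` for which the Albanese variety is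
modular: `H¹(Z)` is a sum of Galois representations of newforms of weight two, restricted to `K`, with
arbitrary multiplicities; for example all modular curves `X_0(N)`, all curves covered by them, abelian
varieties, surfaces and so on, of arbitrary genus and dimension.

We prove that the difference of the two sides, `δ(Z)`, is governed by ONE function on the set of all
newforms, which depends on `Y` only and is square summable: `δ(Z) = ∑_f m_Z(f) s(f)`, and the sums of the
squares of the positive and of the negative values of `s` are at most `[K : ℚ]` times the order of the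
pole of `L(H¹(Y) ⊗ H¹(Y), s)` at `s = 2` (which should be the rank of `End_K(Alb Y)`).  Nothing is
assumed about analytic continuation for this.  It follows, for families of varieties `Z_i` without
common newforms, that `∑ δ(Z_i)² / w_i` is bounded, where `w_i = ∑_f m_i(f)²`, the rank of
`End(Alb Z_i)` if `K = ℚ`; this holds for varieties `Z_i` of unbounded dimension.  For `Z_p = X_0(p)`,
`p` prime, `w_p` is the genus, so that the sum of `1/p` over all primes `p` for which `L₂(s, Y × X_0(p))`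
has a wrong order is finite.

The starting result `ModularEllipticFactors` of this problem treats elliptic curves `Z`.  The proof uses
the one-sided orthogonality of newforms and Bessel's inequality from the starting files
`Pool.Agent.Y722.RS` and `Pool.Agent.Y149.LN`.  The definitions are in `Pool.Agent.U187.NS.Defs`,
`Pool.Agent.U187.MF.Defs` (`IsNewforms`) and `Pool.Agent.W353.EF.Defs`.
-/

set_option autoImplicit false

namespace Pool.Agent.Results.MP_1f4fc7_nt.NewformSpectrum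

open NumberField IsDedekindDomain Filter Topology Polynomial CongruenceSubgroup
open scoped MatrixGroups
open Pool.Agent.W353.EF (LFun size HasOrder)
open Pool.Agent.U187.MF (IsNewforms)
open Pool.Agent.U187.NS

/-- **The spectrum on the newforms.**  Let `Y` be a projective variety over the number field `K`, let
`B₀` be the Euler factors of `L₂(s, Y)` and `B₂` those of `L(H¹(Y) ⊗ H¹(Y), s)`.  Let `f_x`, `x ∈ Ω`, be
pairwise different newforms of weight two, for example all of them.  `size B ε` is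
`log |L(2 + ε)| / log(1/ε)`.
1. There are functions `s_x(ε)`, `x ∈ Ω`, with the following properties.  For every finite set `J` of
newforms, `η > 0` and all small `ε > 0` the sum of the `s_x(ε)²` over the `x ∈ J` with `s_x(ε) > 0`
is at most `[K : ℚ] size B₂ ε + η`, and so is the sum over the `x ∈ J` with `s_x(ε) < 0`; moreover
`size B₂ ε ≤ b₁² + η`.  For every variety `Z` over `K` such that `H¹(Z)` is a sum of the newforms `f_x`
with multiplicities `m(x)`, the difference
`size L₂(Y × Z) - size L₂(Y) - size L₂(Z) - ∑_x m(x) s_x(ε)` tends to zero.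
2. Let `Z_i`, `i ∈ ι`, be such varieties, with multiplicities `m_i`, every newform occurring in at most
`M` of them, and let `w_i = ∑_x m_i(x)²`.  Suppose that `L₂(s, Y)`, `L₂(s, Z_i)` and `L₂(s, Y × Z_i)`
have poles of order `r₀`, `r'_i` and `r_i` at `s = 2`, and let `δ_i = r_i - r₀ - r'_i`.  Let `ρ` be
the order of the pole of `L(H¹(Y) ⊗ H¹(Y), s)` at `s = 2` if it exists, or `ρ = b₁²`.  Then the sum of
the `δ_i² / w_i` over all `i` with `δ_i > 0` is at most `M [K : ℚ] ρ`, and so is the sum over all `i`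
with `δ_i < 0`.  For every `w` there are at most `2 M [K : ℚ] ρ w` indices with `w_i ≤ w` and
`r_i ≠ r₀ + r'_i`. -/
theorem result (K : Type) [Field K] [NumberField K] {Ω : Type} (L : Ω → ℕ)
    (f : ∀ x, CuspForm (Gamma0 (L x) : Subgroup (GL (Fin 2) ℝ)) 2) (hf : IsNewforms L f)
    (Y : VarK K) (B₀ B₂ : HeightOneSpectrum (𝓞 K) → ℂ[X]) (h₀ : IsL₂ Y B₀) (h₂ : IsSquare Y B₂) :
    (∃ s : Ω → ℝ → ℝ,
      (∀ (J : Finset Ω) (η : ℝ), 0 < η → ∀ᶠ ε : ℝ in 𝓝[>] 0,
        LFun B₀ (((2 : ℕ) : ℂ) / 2 + 1 + ε) ≠ 0 ∧ LFun B₂ (((2 : ℕ) : ℂ) / 2 + 1 + ε) ≠ 0 ∧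
        ∑ x ∈ J, (max (s x ε) 0) ^ 2 ≤ Module.finrank ℚ K * size 2 B₂ ε + η ∧
        ∑ x ∈ J, (max (-s x ε) 0) ^ 2 ≤ Module.finrank ℚ K * size 2 B₂ ε + η ∧
        size 2 B₂ ε ≤ (Y.b₁ : ℝ) ^ 2 + η) ∧
      ∀ (Z : VarK K) (m : Ω →₀ ℕ), IsNewformSum f Z m →
        ∀ B' B : HeightOneSpectrum (𝓞 K) → ℂ[X], IsL₂ Z B' → IsL₂Product Y Z B →
        (∀ᶠ ε : ℝ in 𝓝[>] 0, LFun B' (((2 : ℕ) : ℂ) / 2 + 1 + ε) ≠ 0 ∧
          LFun B (((2 : ℕ) : ℂ) / 2 + 1 + ε) ≠ 0) ∧
        Tendsto (fun ε : ℝ => size 2 B ε - size 2 B₀ ε - size 2 B' ε -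
          m.sum fun x k => (k : ℝ) * s x ε) (𝓝[>] 0) (𝓝 0)) ∧
    ∀ (ι : Type) (Z : ι → VarK K) (m : ι → Ω →₀ ℕ) (M : ℕ), (∀ i, IsNewformSum f (Z i) (m i)) →
      (∀ (x : Ω) (S : Finset ι), (∀ i ∈ S, m i x ≠ 0) → S.card ≤ M) →
      ∀ B' B : ι → HeightOneSpectrum (𝓞 K) → ℂ[X],
      (∀ i, IsL₂ (Z i) (B' i)) → (∀ i, IsL₂Product Y (Z i) (B i)) →
      ∀ (r₀ : ℤ) (r' r : ι → ℤ), HasOrder 2 B₀ (-r₀) → (∀ i, HasOrder 2 (B' i) (-(r' i))) →
      (∀ i, HasOrder 2 (B i) (-(r i))) →
      ∀ ρ : ℕ, (ρ = Y.b₁ ^ 2 ∨ HasOrder 2 B₂ (-(ρ : ℤ))) →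
      (∀ J : Finset ι,
        ∑ i ∈ J, (max ((r i : ℝ) - r₀ - r' i) 0) ^ 2 / ((m i).sum fun _ k => k ^ 2 : ℕ) ≤
          M * (Module.finrank ℚ K * ρ) ∧
        ∑ i ∈ J, (max ((r₀ : ℝ) + r' i - r i) 0) ^ 2 / ((m i).sum fun _ k => k ^ 2 : ℕ) ≤
          M * (Module.finrank ℚ K * ρ)) ∧
      ∀ w : ℕ, {i | ((m i).sum fun _ k => k ^ 2) ≤ w ∧ r i ≠ r₀ + r' i}.Finite ∧
        {i | ((m i).sum fun _ k => k ^ 2) ≤ w ∧ r i ≠ r₀ + r' i}.ncard ≤
          2 * (M * Module.finrank ℚ K * ρ) * w := by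
  refine ⟨⟨sp f Y, fun J η hη => ?_, fun Z m hm B' B h' hB => ⟨?_, main_add hf hm h₀ h' hB⟩⟩,
    fun ι Z m M hm hM B' B h' hB r₀ r' r hr₀ hr' hr ρ hρ => ⟨fun J =>
      main_order hf h₂ hρ hm hM h₀ h' hB hr₀ hr' hr J, fun w =>
      main_card hf h₂ hρ hm hM h₀ h' hB hr₀ hr' hr w⟩⟩
  · have h3 := square_le Y (half_pos hη)
    have h4 := (square h₂).2
    filter_upwards [(base h₀).1, (square h₂).1, main_bessel hf Y h₂ J hη, h3,
      h4.eventually_const_lt (show -(η / 2) < (0 : ℝ) by linarith)] with ε g1 g2 g3 g4 g5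
    exact ⟨g1, g2, g3.1, g3.2, by linarith⟩
  · filter_upwards [(base h').1, (link h₀ h' hB).1] with ε g1 g2
    exact ⟨g1, g2⟩

end Pool.Agent.Results.MP_1f4fc7_nt.NewformSpectrum
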