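import Pool.Agent.U437.SP

/-!
# Tate's formula for the pole and the pole order of the tensor square of the transcendental part

`X` is a smooth projective variety over a number field `K`, of dimension `d`, `0 ≤ m ≤ d`, `N` the
`2m`-th Betti number and `V` a part of `H^{2m}(X)(m)`, for instance `V = NS(X) ⊗ ℚ` for `m = 1`.  The
transcendental part `T` is the complement of `V(-m)` in `H^{2m}(X)`, of dimension `s = N - dim V`; its
tensor powers `T^{⊗ r}` are parts of the cohomology of the powers `X^r`.  Tate's formula says that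
`L(H^{2m}(X) ⊗ χ, s)` has a pole of order `dim (V ⊗ χ)^G` at `s = m + 1` for all Artin representations `χ`
of `G = Gal(K̄/K)`; the defect `δ_χ` is the difference of this number and the actual order of the pole.

The starting result `ArtinSpectrum` bounds the sum of the squares of the defects by `s²`.  Here it is
bounded by the order of the pole of `L(T ⊗ T, s)` at its edge `2m + 1`.  If this pole is simple (as expected
for irreducible `T`), there is at most one exceptional `χ`, its defect is `1` or `-1`, and then it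
determines the behaviour of all `L(T^{⊗ r} ⊗ ψ, s)` at the edge.

The definitions are in `Pool.Agent.W353.EF.Defs` (Frobenius eigenvalues, Euler factors),
`Pool.Agent.W353.EH.Defs` (`edgePoint`, `size`), `Pool.Agent.W353.TD.Defs` (`IsPart`, `rank`),
`Pool.Agent.W353.AT.Defs` and `Pool.Agent.W353.AT.TDefs` (Artin twists, `twistRank`, `TwistDefect`,
`fixedDim`) and `Pool.Agent.Y139.SM.Defs` (`IsTensorSystem`, `TensorPole`).
-/

set_option autoImplicit false

namespace Pool.Agent.Results.MP_1f4fc7_nt.SelfProducts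

open NumberField IsDedekindDomain Filter Topology Polynomial
open Pool.Agent.W353.TD (IsPart rank)
open Pool.Agent.W353.EF (LFun)
open Pool.Agent.W353.EH (edgePoint size)
open Pool.Agent.W353.AT (IsArtin IsTwistedSystem twistRank TwistDefect fixedDim)
open Pool.Agent.Y139.SM (IsTensorSystem TensorPole)

section
variable {K : Type} [Field K] [NumberField K] {l : ℕ} (X : Set (MvPolynomial (Fin l) (𝓞 K)))
  (d m N : ℕ) {V : Type} [AddCommGroup V] [Module ℚ V] [FiniteDimensional ℚ V]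
  (ρ : Representation ℚ Gal(AlgebraicClosure K/K) V)

/-- `y(χ) = log |L(H^{2m}(X) ⊗ χ, m + 1 + ε)| / log(1/ε) - dim (V ⊗ χ)^G`, for the Euler factors `B` of
`L(H^{2m}(X) ⊗ χ, s)`. -/
noncomputable def yy {n : ℕ} (χ : Representation ℂ Gal(AlgebraicClosure K/K) (Fin n → ℂ))
    (B : HeightOneSpectrum (𝓞 K) → ℂ[X]) (ε : ℝ) : ℝ :=
  size (2 * m) 0 B ε - twistRank ρ χ

/-- `B₂ v` are the Euler factors of `L(T ⊗ T, s)`. -/
def IsSquareSystem (B₂ : HeightOneSpectrum (𝓞 K) → ℂ[X]) : Prop :=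
  IsTensorSystem X d m N ρ 2 (1 : Representation ℂ Gal(AlgebraicClosure K/K) (Fin 1 → ℂ)) B₂

/-- `∑ y(χ_k)² ≤ x(T ⊗ T) + η` for finitely many inequivalent irreducible Artin representations, every
`η > 0` and all small `ε > 0`. -/
def BesselBound : Prop :=
  ∀ (κ : Type) [Fintype κ] (n : κ → ℕ)
    (χ : ∀ k, Representation ℂ Gal(AlgebraicClosure K/K) (Fin (n k) → ℂ))
    (B : κ → HeightOneSpectrum (𝓞 K) → ℂ[X]) (B₂ : HeightOneSpectrum (𝓞 K) → ℂ[X]),
    (∀ k, IsArtin (χ k)) → (∀ k, (χ k).IsIrreducible) →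
    (∀ k k', k ≠ k' → IsEmpty ((χ k).Equiv (χ k'))) →
    (∀ k, IsTwistedSystem X d (2 * m) N (χ k) 0 (B k)) → IsSquareSystem X d m N ρ B₂ →
    ∀ η : ℝ, 0 < η → ∀ᶠ ε : ℝ in 𝓝[>] 0,
      ∑ k, yy m ρ (χ k) (B k) ε ^ 2 ≤ size (2 * (2 * m)) 0 B₂ ε + η

/-- For an irreducible Artin representation `χ` of dimension `n`, `e = 1` or `e = -1`, all `r`, all
Artin representations `ψ`, `θ` with `tr θ = (tr χ)^r tr ψ`, `n' = dim ψ`, all `δ, η > 0` and all small
`ε > 0`, the number `D = x(T ⊗ T) + 2 e y(χ) + 1` is at least `-η`, and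
`|x(T^{⊗ r} ⊗ ψ) - (-e)^r dim θ^G| ≤ r (s + n)^{r - 1} n' (δ + D / δ) / 2 + η`. -/
def RigidityBound : Prop :=
  ∀ (n : ℕ) (χ : Representation ℂ Gal(AlgebraicClosure K/K) (Fin n → ℂ)), IsArtin χ →
    χ.IsIrreducible → ∀ B₁ B₂ : HeightOneSpectrum (𝓞 K) → ℂ[X],
    IsTwistedSystem X d (2 * m) N χ 0 B₁ → IsSquareSystem X d m N ρ B₂ →
    ∀ e : ℝ, e = 1 ∨ e = -1 → ∀ (r n' n'' : ℕ)
      (ψ : Representation ℂ Gal(AlgebraicClosure K/K) (Fin n' → ℂ))
      (θ : Representation ℂ Gal(AlgebraicClosure K/K) (Fin n'' → ℂ))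
      (B : HeightOneSpectrum (𝓞 K) → ℂ[X]), IsArtin ψ → IsArtin θ →
      (∀ g, θ.character g = χ.character g ^ r * ψ.character g) →
      IsTensorSystem X d m N ρ r ψ B →
      ∀ δ η : ℝ, 0 < δ → 0 < η → ∀ᶠ ε : ℝ in 𝓝[>] 0,
        0 ≤ size (2 * (2 * m)) 0 B₂ ε + 2 * e * yy m ρ χ B₁ ε + 1 + η ∧
        |size (2 * (r * m)) 0 B ε - (-e) ^ r * Module.finrank ℂ θ.invariants| ≤
          r * (((N - Module.finrank ℚ V : ℕ) : ℝ) + n) ^ (r - 1) * n' *
            ((δ + (size (2 * (2 * m)) 0 B₂ ε + 2 * e * yy m ρ χ B₁ ε + 1) / δ) / 2) + η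

/-- `|y(χ)| ≤ (x(T ⊗ T) + 1) / 2 - (x(T^{⊗ 4}) - 2 x(T ⊗ T ⊗ ψ) + 1) / (2 (s + n)²) + η` for an
irreducible Artin representation `χ` of dimension `n`, `tr ψ = |tr χ|²`, every `η > 0` and all small
`ε > 0`. -/
def FourthMomentBound : Prop :=
  ∀ (n : ℕ) (χ : Representation ℂ Gal(AlgebraicClosure K/K) (Fin n → ℂ)), IsArtin χ →
    χ.IsIrreducible → ∀ B₁ B₂ : HeightOneSpectrum (𝓞 K) → ℂ[X],
    IsTwistedSystem X d (2 * m) N χ 0 B₁ → IsSquareSystem X d m N ρ B₂ →
    ∀ (n' : ℕ) (ψ : Representation ℂ Gal(AlgebraicClosure K/K) (Fin n' → ℂ))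
      (Bψ B₄ : HeightOneSpectrum (𝓞 K) → ℂ[X]), IsArtin ψ →
      (∀ g, ψ.character g = ((‖χ.character g‖ ^ 2 : ℝ) : ℂ)) →
      IsTensorSystem X d m N ρ 2 ψ Bψ →
      IsTensorSystem X d m N ρ 4
        (1 : Representation ℂ Gal(AlgebraicClosure K/K) (Fin 1 → ℂ)) B₄ →
      ∀ η : ℝ, 0 < η → ∀ᶠ ε : ℝ in 𝓝[>] 0, |yy m ρ χ B₁ ε| ≤
        (size (2 * (2 * m)) 0 B₂ ε + 1) / 2 -
          (size (2 * (4 * m)) 0 B₄ ε - 2 * size (2 * (2 * m)) 0 Bψ ε + 1) /
            (2 * (((N - Module.finrank ℚ V : ℕ) : ℝ) + n) ^ 2) + η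

/-- Every irreducible Artin representation has a defect: `log |L(m + 1 + ε)| / log(1/ε)` has an
integral limit for `L(H^{2m}(X) ⊗ χ, s)`. -/
def DefectsExist : Prop :=
  ∀ (n : ℕ) (χ : Representation ℂ Gal(AlgebraicClosure K/K) (Fin n → ℂ)), IsArtin χ →
    χ.IsIrreducible → ∃ δ : ℤ, TwistDefect X d m N ρ χ δ

/-- For every number field `F ⊇ K` the size of `L(H^{2m}(X_F), s)` at `m + 1` tends to
`rank V^{Gal(K̄/F)} - def F`. -/
def FormulaOver (defF : IntermediateField K (AlgebraicClosure K) → ℝ) : Prop :=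
  ∀ (F : IntermediateField K (AlgebraicClosure K)) [NumberField F]
    (B : HeightOneSpectrum (𝓞 F) → ℂ[X]), Pool.Agent.W353.EF.IsEulerSystem X d (2 * m) N B →
    (∀ᶠ ε : ℝ in 𝓝[>] 0, LFun B (((2 * m : ℕ) : ℂ) / 2 + 1 + ε) ≠ 0) ∧
    Tendsto (Pool.Agent.W353.EF.size (2 * m) B) (𝓝[>] 0) (𝓝 ((rank ρ F : ℝ) - defF F))

/-- There are finitely many, at most `k₂`, inequivalent irreducible Artin representations `χ_k` with
defects `δ_k ≠ 0`, `∑ δ_k² ≤ k₂`, all others have the defect `0`, and the defect over every number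
field `F ⊇ K` is `∑ δ_k dim χ_k^{Gal(K̄/F)}`. -/
def FewDefects (k₂ : ℕ) : Prop :=
  ∃ (κ : Type) (_ : Fintype κ) (n : κ → ℕ)
    (χ : ∀ k, Representation ℂ Gal(AlgebraicClosure K/K) (Fin (n k) → ℂ)) (δ : κ → ℤ),
    (∀ k, IsArtin (χ k) ∧ (χ k).IsIrreducible ∧ δ k ≠ 0 ∧
      TwistDefect X d m N ρ (χ k) (δ k)) ∧
    (∀ k k', k ≠ k' → IsEmpty ((χ k).Equiv (χ k'))) ∧
    ∑ k, δ k ^ 2 ≤ (k₂ : ℤ) ∧ Fintype.card κ ≤ k₂ ∧
    (∀ (n' : ℕ) (χ' : Representation ℂ Gal(AlgebraicClosure K/K) (Fin n' → ℂ)),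
      IsArtin χ' → χ'.IsIrreducible → (∀ k, IsEmpty (χ'.Equiv (χ k))) →
      TwistDefect X d m N ρ χ' 0) ∧
    FormulaOver X d m N ρ (fun F => ∑ k, (δ k : ℝ) * fixedDim (χ k) F)

/-- Tate's formula holds for all Artin twists and over all number fields `F ⊇ K`. -/
def TateFormula : Prop :=
  (∀ (n : ℕ) (χ : Representation ℂ Gal(AlgebraicClosure K/K) (Fin n → ℂ)),
    IsArtin χ → χ.IsIrreducible → TwistDefect X d m N ρ χ 0) ∧
  FormulaOver X d m N ρ (fun _ => 0)

/-- There is exactly one exceptional irreducible Artin representation `χ`, its defect `δ` is `1` or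
`-1`, the defect over `F` is `δ dim χ^{Gal(K̄/F)}` for all number fields `F ⊇ K`, and `x(T^{⊗ r} ⊗ ψ)`
tends to `(-δ)^r dim θ^G` for all `r` and all Artin representations `ψ`, `θ` with
`tr θ = (tr χ)^r tr ψ`. -/
def OneException : Prop :=
  ∃ (n : ℕ) (χ : Representation ℂ Gal(AlgebraicClosure K/K) (Fin n → ℂ)) (δ : ℤ),
    (δ = 1 ∨ δ = -1) ∧ IsArtin χ ∧ χ.IsIrreducible ∧ TwistDefect X d m N ρ χ δ ∧
    (∀ (n' : ℕ) (χ' : Representation ℂ Gal(AlgebraicClosure K/K) (Fin n' → ℂ)),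
      IsArtin χ' → χ'.IsIrreducible → IsEmpty (χ'.Equiv χ) →
      TwistDefect X d m N ρ χ' 0) ∧
    FormulaOver X d m N ρ (fun F => δ * fixedDim χ F) ∧
    ∀ (r n' n'' : ℕ) (ψ : Representation ℂ Gal(AlgebraicClosure K/K) (Fin n' → ℂ))
      (θ : Representation ℂ Gal(AlgebraicClosure K/K) (Fin n'' → ℂ))
      (B : HeightOneSpectrum (𝓞 K) → ℂ[X]), IsArtin ψ → IsArtin θ →
      (∀ g, θ.character g = χ.character g ^ r * ψ.character g) →
      IsTensorSystem X d m N ρ r ψ B →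
      Tendsto (size (2 * (r * m)) 0 B) (𝓝[>] 0)
        (𝓝 ((-δ : ℤ) ^ r * Module.finrank ℂ θ.invariants))

end

/-- **Tate's formula and the tensor powers of the transcendental part.**  Let `x(M)` be
`log |L(M, edge + ε)| / log(1/ε)`, a function of `ε > 0`; it tends to the order of the pole at the edge
if there is a meromorphic continuation.
* (1)-(3) The three inequalities `BesselBound`, `RigidityBound`, `FourthMomentBound`, in which no
continuation is assumed.

In (4)-(6) suppose that there are defects `δ_χ` (`DefectsExist`).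
* (4) If `x(T ⊗ T)` tends to `k₂`, the sum of the squares of the defects is at most `k₂`, and the
defects over all number fields are determined by them.
* (5) If `x(T ⊗ T)` tends to `1`, then either Tate's formula holds for all Artin twists and over all
number fields, or there is exactly one exceptional `χ`, with defect `δ = 1` or `δ = -1`, and at the edge
all tensor powers of `T` look like those of `-δ χ`.
* (6) If `x(T ⊗ T ⊗ ψ)` tends to `dim ψ^G` for every Artin representation `ψ`, and `x(T^{⊗ 4})` tends to an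
integer `k ≠ 1`, then Tate's formula holds for all Artin twists and over all number fields. -/
theorem result (K : Type) [Field K] [NumberField K] (l d m N : ℕ)
    (X : Set (MvPolynomial (Fin l) (𝓞 K))) (V : Type) [AddCommGroup V] [Module ℚ V]
    [FiniteDimensional ℚ V] (ρ : Representation ℚ Gal(AlgebraicClosure K/K) V) (hmd : m ≤ d)
    (hV : IsPart X d m N ρ) :
    (BesselBound X d m N ρ ∧ RigidityBound X d m N ρ ∧ FourthMomentBound X d m N ρ) ∧
    (DefectsExist X d m N ρ →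
      (∀ k₂ : ℕ, TensorPole X d m N ρ 2
        (1 : Representation ℂ Gal(AlgebraicClosure K/K) (Fin 1 → ℂ)) k₂ →
        FewDefects X d m N ρ k₂) ∧
      (TensorPole X d m N ρ 2
        (1 : Representation ℂ Gal(AlgebraicClosure K/K) (Fin 1 → ℂ)) 1 →
        TateFormula X d m N ρ ∨ OneException X d m N ρ) ∧
      ((∀ (n : ℕ) (ψ : Representation ℂ Gal(AlgebraicClosure K/K) (Fin n → ℂ)), IsArtin ψ →
          TensorPole X d m N ρ 2 ψ (Module.finrank ℂ ψ.invariants)) →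
        ∀ k : ℕ, TensorPole X d m N ρ 4
          (1 : Representation ℂ Gal(AlgebraicClosure K/K) (Fin 1 → ℂ)) k → k ≠ 1 →
        TateFormula X d m N ρ)) := by
  refine ⟨⟨fun κ _ n χ B B₂ hA hi hne hB hB₂ η hη =>
    Pool.Agent.U437.SP.besselT hmd hV n χ B B₂ hA hi hne hB hB₂ hη, ?_, ?_⟩, ?_⟩
  · intro n χ hχ hirr B₁ B₂ hB₁ hB₂ e he r n' n'' ψ θ B hψ hθ hc hB δ η hδ hη
    exact Pool.Agent.U437.SP.rigidT hmd hV hχ hirr hB₁ hB₂ he r hψ hθ hc hB hδ hη
  · intro n χ hχ hirr B₁ B₂ hB₁ hB₂ n' ψ Bψ B₄ hψ hψχ hBψ hB₄ η hη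
    exact Pool.Agent.Y139.SM.four_ineq hmd hV hχ hirr hψ hψχ hB₁ hB₂ hBψ hB₄ hη
  · intro H
    refine ⟨fun k₂ h2 => Pool.Agent.U437.SP.fields hmd hV h2 H, fun h2 => ?_, ?_⟩
    · rcases Pool.Agent.U437.SP.dichotomy hmd hV h2 H with h | h
      · refine Or.inl ⟨h.1, fun F _ B hB => ?_⟩
        simpa only [sub_zero] using h.2 F B hB
      · exact Or.inr h
    · intro h2 k h4 hk
      have h3 := (Pool.Agent.Y139.SM.main hmd hV h2 hk h4)
      refine ⟨fun n χ hχ hirr => ?_, fun F _ B hB => ?_⟩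
      · obtain ⟨δ, hδ⟩ := H n χ hχ hirr
        have h0 := (h3.1 n χ hχ hirr).2 δ hδ
        rwa [h0] at hδ
      · simpa only [sub_zero] using h3.2 H F B hB

end Pool.Agent.Results.MP_1f4fc7_nt.SelfProducts
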